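/-
QP-T1: finitely generated right ideals of the group algebra of a free group are free.
-/
import Pool.Agent.Helper29.QP.Defs
import Pool.Agent.Helper79.QP.LemE

open MonoidAlgebra Module

namespace Pool.Agent.Helper89.QP

open Pool.Agent.Helper29.QP
open Pool.Agent.Helper79.QP (lemE)

universe u

variable {K : Type u} [Field K] {X : Type}

/-! ### Generalities -/

theorem mk_inj {L L' : List (X × Bool)} (h : FreeGroup.IsReduced L) (h' : FreeGroup.IsReduced L')
    (e : FreeGroup.mk L = FreeGroup.mk L') : L = L' := by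
  classical
  have := FreeGroup.reduce.sound e
  rwa [h.reduce_eq, h'.reduce_eq] at this

theorem isReduced_prefix {L L' : List (X × Bool)} (h : FreeGroup.IsReduced L) (h' : L' <+: L) :
    FreeGroup.IsReduced L' := by
  obtain ⟨M, rfl⟩ := h'
  exact List.IsChain.left_of_append h

/-- restriction of the support -/
noncomputable def res (T : Set (FreeGroup X)) : GA K X →ₗ[K] GA K X := by
  classical
  exact (coeffLinearEquiv K).symm.toLinearMap ∘ₗ (Finsupp.supported K K T).subtype ∘ₗ
    Finsupp.restrictDom K K T ∘ₗ (coeffLinearEquiv K).toLinearMap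

theorem res_coeff_of_mem (T : Set (FreeGroup X)) (ρ : GA K X) {g : FreeGroup X} (hg : g ∈ T) :
    (res T ρ).coeff g = ρ.coeff g := by
  classical
  simp [res, coeffLinearEquiv, hg]

theorem res_coeff_of_notMem (T : Set (FreeGroup X)) (ρ : GA K X) {g : FreeGroup X} (hg : g ∉ T) :
    (res T ρ).coeff g = 0 := by
  classical
  simp [res, coeffLinearEquiv, hg]

theorem res_eq (T : Set (FreeGroup X)) (ρ : GA K X) (h : SuppIn T ρ) : res T ρ = ρ := by
  ext g
  by_cases hg : g ∈ T
  · exact res_coeff_of_mem T ρ hg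
  · rw [res_coeff_of_notMem T ρ hg]
    by_contra hne
    exact hg (h g (Ne.symm hne))

theorem suppIn_res (T : Set (FreeGroup X)) (ρ : GA K X) : SuppIn T (res T ρ) := by
  intro g hg
  by_contra h
  exact hg (res_coeff_of_notMem T ρ h)

/-- the right action of a group element -/
theorem mul_el_coeff (ρ : GA K X) (g h : FreeGroup X) :
    (ρ * el K g).coeff h = ρ.coeff (h * g⁻¹) := by
  rw [coeff_mul_single_eq_coeff_mul (h * g⁻¹) (by
    intro m' _
    exact ⟨fun hh => by rw [← hh]; simp, fun hh => by rw [hh]; simp⟩)]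
  simp

theorem el_one : el K (1 : FreeGroup X) = 1 := rfl

theorem el_mul (g h : FreeGroup X) : el K g * el K h = el K (g * h) := by
  simp [el]

theorem mem_mul (L : RIdeal K X) {ρ : GA K X} (h : ρ ∈ L) (a : GA K X) : ρ * a ∈ L := by
  have := L.smul_mem (MulOpposite.op a) h
  simpa using this

theorem mem_smul (L : RIdeal K X) {ρ : GA K X} (h : ρ ∈ L) (r : K) : r • ρ ∈ L := by
  have : r • ρ = ρ * single 1 r := by
    ext g
    rw [coeff_mul_single_eq_coeff_mul g (by intro m' _; simp)]
    simp [mul_comm]
  rw [this]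
  exact mem_mul L h _

theorem el_coeff [DecidableEq (FreeGroup X)] (g h : FreeGroup X) :
    (el K g).coeff h = if g = h then 1 else 0 := by
  simp [el, Finsupp.single_apply]


/-! ### Right actions on `U × A` -/

/-- Right multiplication by a group element. -/
noncomputable def mulR (g : FreeGroup X) : GA K X ≃ₗ[K] GA K X :=
  LinearEquiv.ofLinearMap (LinearMap.mulRight K (el K g)) (LinearMap.mulRight K (el K g⁻¹))
    (by ext1 a; ext b; simp [el]) (by ext1 a; ext b; simp [el])

theorem mulR_apply (g : FreeGroup X) (a : GA K X) : mulR g a = a * el K g := rfl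

section act
variable {M : Type u} [AddCommGroup M] [Module K M]

/-- The right action of the algebra attached to the left action `Θ`. -/
noncomputable def RA (Θ : FreeGroup X →* (M ≃ₗ[K] M)) (v : M) : GA K X →ₗ[K] M :=
  (Finsupp.linearCombination K (fun g => Θ g⁻¹ v)) ∘ₗ (coeffLinearEquiv K).toLinearMap

theorem RA_single (Θ : FreeGroup X →* (M ≃ₗ[K] M)) (v : M) (g : FreeGroup X) (r : K) :
    RA Θ v (single g r) = r • Θ g⁻¹ v := by
  simp [RA, coeffLinearEquiv]

theorem RA_el (Θ : FreeGroup X →* (M ≃ₗ[K] M)) (v : M) (g : FreeGroup X) :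
    RA Θ v (el K g) = Θ g⁻¹ v := by
  simp [el, RA_single]

theorem RA_add_left (Θ : FreeGroup X →* (M ≃ₗ[K] M)) (v w : M) (a : GA K X) :
    RA Θ (v + w) a = RA Θ v a + RA Θ w a := by
  induction a using MonoidAlgebra.induction_linear with
  | zero => simp
  | add x y hx hy => rw [map_add, map_add, map_add, hx, hy]; abel
  | single g r => simp [RA_single]

theorem RA_smul_left (Θ : FreeGroup X →* (M ≃ₗ[K] M)) (v : M) (r : K) (a : GA K X) :
    RA Θ (r • v) a = r • RA Θ v a := by
  induction a using MonoidAlgebra.induction_linear with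
  | zero => simp
  | add x y hx hy => rw [map_add, map_add, hx, hy, smul_add]
  | single g r' => simp [RA_single, smul_comm r r']

theorem RA_zero_left (Θ : FreeGroup X →* (M ≃ₗ[K] M)) (a : GA K X) :
    RA Θ (0 : M) a = 0 := by
  have := RA_smul_left Θ (0 : M) 0 a
  simpa using this

theorem RA_mul (Θ : FreeGroup X →* (M ≃ₗ[K] M)) (v : M) (ρ a : GA K X) :
    RA Θ v (ρ * a) = RA Θ (RA Θ v ρ) a := by
  induction ρ using MonoidAlgebra.induction_linear with
  | zero => simp [RA_zero_left]
  | add x y hx hy => rw [add_mul, map_add, map_add, RA_add_left, hx, hy]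
  | single g r =>
    induction a using MonoidAlgebra.induction_linear with
    | zero => simp
    | add x y hx hy => rw [mul_add, map_add, map_add, hx, hy]
    | single h s =>
      rw [single_mul_single, RA_single, RA_single, RA_single, mul_inv_rev, map_mul, map_smul,
        LinearEquiv.mul_apply, smul_smul, mul_comm]

end act

section ext
variable {U : Type u} [AddCommGroup U] [Module K U]

/-- right action of the generator `x` on `U × A` -/
noncomputable def Rx (θ : FreeGroup X →* (U ≃ₗ[K] U)) (h : X → (U →ₗ[K] GA K X)) (x : X) :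
    (U × GA K X) ≃ₗ[K] (U × GA K X) :=
  LinearEquiv.skewProd (θ (FreeGroup.of x))⁻¹ (mulR (FreeGroup.of x)) (h x)

/-- the left action on `U × A` -/
noncomputable def Th (θ : FreeGroup X →* (U ≃ₗ[K] U)) (h : X → (U →ₗ[K] GA K X)) :
    FreeGroup X →* ((U × GA K X) ≃ₗ[K] (U × GA K X)) :=
  FreeGroup.lift fun x => (Rx θ h x)⁻¹

theorem Th_of_inv (θ : FreeGroup X →* (U ≃ₗ[K] U)) (h : X → (U →ₗ[K] GA K X)) (x : X) (u : U)
    (a : GA K X) : Th θ h (FreeGroup.of x)⁻¹ (u, a) =
      ((θ (FreeGroup.of x))⁻¹ u, a * el K (FreeGroup.of x) + h x u) := by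
  rw [map_inv]
  simp [Th, Rx, mulR_apply]

theorem Th_zero (θ : FreeGroup X →* (U ≃ₗ[K] U)) (h : X → (U →ₗ[K] GA K X)) (g : FreeGroup X)
    (a : GA K X) : Th θ h g⁻¹ (0, a) = (0, a * el K g) := by
  induction g using FreeGroup.induction_on generalizing a with
  | C1 => rw [inv_one, map_one, el_one, mul_one]; rfl
  | of x => 
    rw [Th_of_inv]; simp
  | inv_of x _ =>
    apply (Th θ h (FreeGroup.of x)⁻¹).injective
    rw [← LinearEquiv.mul_apply, ← map_mul, mul_inv_cancel, map_one, Th_of_inv, mul_assoc, el_mul,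
      inv_mul_cancel, el_one, mul_one]
    simp
  | mul g g' hg hg' =>
    rw [mul_inv_rev, map_mul, LinearEquiv.mul_apply, hg, hg', mul_assoc, el_mul]

theorem RA_Th_zero (θ : FreeGroup X →* (U ≃ₗ[K] U)) (h : X → (U →ₗ[K] GA K X)) 
    (b a : GA K X) : RA (Th θ h) (0, b) a = (0, b * a) := by
  induction a using MonoidAlgebra.induction_linear with
  | zero => rw [map_zero, mul_zero]; rfl
  | add x y hx hy => rw [map_add, hx, hy, mul_add]; simp
  | single g r =>
    rw [RA_single, Th_zero]
    simp only [Prod.smul_mk, smul_zero, Prod.mk.injEq, true_and]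
    rw [← mul_smul_comm]
    simp [el]

end ext

/-! ### Functionals -/

theorem exists_functional {U V : Type u} [AddCommGroup U] [Module K U] [AddCommGroup V]
    [Module K V] (P : Submodule K V) (c : V →ₗ[K] U) (f : V →ₗ[K] K)
    (h : ∀ ρ ∈ P, c ρ = 0 → f ρ = 0) : ∃ φ : U →ₗ[K] K, ∀ ρ ∈ P, φ (c ρ) = f ρ := by
  have h1 := LinearMap.range_dualMap_eq_dualAnnihilator_ker (K := K) (c ∘ₗ P.subtype)
  have h2 : (f ∘ₗ P.subtype) ∈ (LinearMap.ker (c ∘ₗ P.subtype)).dualAnnihilator := by
    rw [Submodule.mem_dualAnnihilator]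
    intro w hw
    exact h w w.2 (by simpa using hw)
  rw [← h1] at h2
  obtain ⟨φ, hφ⟩ := h2
  refine ⟨φ, fun ρ hρ => ?_⟩
  have := congrArg (fun F => F ⟨ρ, hρ⟩) hφ
  simpa using this

theorem suppIn_add {T : Set (FreeGroup X)} {a b : GA K X} (ha : SuppIn T a) (hb : SuppIn T b) :
    SuppIn T (a + b) := by
  intro g hg
  by_contra h
  apply hg
  have h1 : a.coeff g = 0 := by by_contra h'; exact h (ha g h')
  have h2 : b.coeff g = 0 := by by_contra h'; exact h (hb g h')
  simp [h1, h2]

theorem suppIn_smul {T : Set (FreeGroup X)} {a : GA K X} (r : K) (ha : SuppIn T a) :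
    SuppIn T (r • a) := by
  intro g hg
  by_contra h
  apply hg
  have h1 : a.coeff g = 0 := by by_contra h'; exact h (ha g h')
  simp [h1]

theorem suppIn_zero {T : Set (FreeGroup X)} : SuppIn T (0 : GA K X) := by
  intro g hg; simp at hg

theorem suppIn_el {T : Set (FreeGroup X)} {g : FreeGroup X} (h : g ∈ T) : SuppIn T (el K g) := by
  classical
  intro g' hg'
  rw [el_coeff] at hg'
  split_ifs at hg' with h1
  · exact h1 ▸ h
  · simp at hg'

theorem mem_span_el {T : Set (FreeGroup X)} {ρ : GA K X} (h : SuppIn T ρ) :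
    ρ ∈ Submodule.span K ((fun m : FreeGroup X => el K m) '' T) := by
  have h1 := MonoidAlgebra.supported_eq_span_single (R := K) (M := FreeGroup X) T
  have h3 : ρ ∈ MonoidAlgebra.supported K K T := by
    rw [mem_supported']
    intro m hm
    by_contra h4
    exact hm (h m h4)
  rw [h1] at h3
  exact h3

/-- coefficient functional -/
noncomputable def cf (t : FreeGroup X) : GA K X →ₗ[K] K where
  toFun ρ := ρ.coeff t
  map_add' a b := by simp
  map_smul' r a := by simp

theorem cf_apply (t : FreeGroup X) (ρ : GA K X) : cf t ρ = ρ.coeff t := rfl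

/-- the right ideal generated by the elements of `L` supported in `T` -/
noncomputable def LT (L : RIdeal K X) (T : Set (FreeGroup X)) : RIdeal K X :=
  Submodule.span _ {ρ | ρ ∈ L ∧ SuppIn T ρ}

/-! ### The key step -/

theorem key (L : RIdeal K X) (T : Set (FreeGroup X)) (hT : PC T) (hTf : T.Finite)
    (L0 : List (X × Bool)) (s : X × Bool) (hred : FreeGroup.IsReduced (L0 ++ [s]))
    (htT : FreeGroup.mk (L0 ++ [s]) ∈ T)
    (hmax : ∀ L' : List (X × Bool), FreeGroup.IsReduced L' → FreeGroup.mk L' ∈ T →
      L'.length ≤ (L0 ++ [s]).length)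
    (h2 : ∀ ρ ∈ L, SuppIn T ρ → SuppIn T (ρ * el K (FreeGroup.mk [s])⁻¹) →
      ρ.coeff (FreeGroup.mk (L0 ++ [s])) = 0)
    (e : GA K X) (heT : SuppIn T e) (he : e ∈ L) (he1 : e.coeff (FreeGroup.mk (L0 ++ [s])) = 1)
    (a : GA K X) (ha : e * a ∈ LT L (T \ {FreeGroup.mk (L0 ++ [s])})) : a = 0 := by
  classical
  set t := FreeGroup.mk (L0 ++ [s]) with ht
  -- the quotient
  let W : Submodule K (GA K X) := Submodule.comap (res T)
    { carrier := {ρ | ρ ∈ L}
      zero_mem' := L.zero_mem
      add_mem' := fun h h' => L.add_mem h h'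
      smul_mem' := fun r ρ h => mem_smul L h r }
  have hW : ∀ ρ, ρ ∈ W ↔ res T ρ ∈ L := fun ρ => Iff.rfl
  let c : GA K X →ₗ[K] (GA K X ⧸ W) := W.mkQ
  have hc0 : ∀ ρ, SuppIn T ρ → (c ρ = 0 ↔ ρ ∈ L) := by
    intro ρ hρ
    rw [Submodule.mkQ_apply, Submodule.Quotient.mk_eq_zero, hW, res_eq T ρ hρ]
  have hcres : ∀ ρ, c (res T ρ) = c ρ := by
    intro ρ
    have h0 : c (res T ρ - ρ) = 0 := by
      rw [Submodule.mkQ_apply, Submodule.Quotient.mk_eq_zero, hW, map_sub,
        res_eq T (res T ρ) (suppIn_res T ρ), sub_self]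
      exact L.zero_mem
    rw [map_sub, sub_eq_zero] at h0
    exact h0
  have : FiniteDimensional K (GA K X ⧸ W) := by
    have hfin : FiniteDimensional K (Submodule.span K ((fun m : FreeGroup X => el K m) '' T)) :=
      FiniteDimensional.span_of_finite K (hTf.image _)
    refine Module.Finite.of_surjective
      (c ∘ₗ (Submodule.span K ((fun m : FreeGroup X => el K m) '' T)).subtype) ?_
    intro q
    obtain ⟨ρ, rfl⟩ := W.mkQ_surjective q
    exact ⟨⟨res T ρ, mem_span_el (suppIn_res T ρ)⟩, hcres ρ⟩
  obtain ⟨θ, hθ1, hθ2⟩ := lemE T hT c (by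
    intro x ρ h h'
    rw [hc0 _ h, hc0 _ h']
    refine ⟨fun hh => mem_mul L hh _, fun hh => ?_⟩
    have := mem_mul L hh (el K (FreeGroup.of x)⁻¹)
    rwa [mul_assoc, el_mul, mul_inv_cancel, el_one, mul_one] at this)
  -- the functional
  obtain ⟨x₀, sb⟩ := s
  let P : Submodule K (GA K X) :=
    { carrier := {ρ | SuppIn T ρ ∧ SuppIn T (ρ * el K (FreeGroup.of x₀))}
      zero_mem' := ⟨suppIn_zero, by rw [zero_mul]; exact suppIn_zero⟩
      add_mem' := fun h h' => ⟨suppIn_add h.1 h'.1, by
        rw [add_mul]; exact suppIn_add h.2 h'.2⟩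
      smul_mem' := fun r ρ h => ⟨suppIn_smul r h.1, by
        rw [smul_mul_assoc]; exact suppIn_smul r h.2⟩ }
  let f : GA K X →ₗ[K] K := if sb then cf t ∘ₗ (mulR (FreeGroup.of x₀)).toLinearMap else - cf t
  obtain ⟨φ, hφ⟩ := exists_functional P c f (by
    intro ρ hρ h0
    have hρL : ρ ∈ L := (hc0 ρ hρ.1).1 h0
    cases sb with
    | true =>
      simp only [f, if_true, LinearMap.comp_apply]
      refine h2 _ (mem_mul L hρL _) hρ.2 ?_
      change SuppIn T (ρ * el K (FreeGroup.of x₀) * el K (FreeGroup.of x₀)⁻¹)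
      rw [mul_assoc, el_mul, mul_inv_cancel, el_one, mul_one]
      exact hρ.1
    | false =>
      simp only [f]
      have h3 : ρ.coeff t = 0 := by
        refine h2 _ hρL hρ.1 ?_
        have : (FreeGroup.mk [(x₀, false)])⁻¹ = FreeGroup.of x₀ := rfl
        rw [this]; exact hρ.2
      simp [cf_apply, h3])
  -- the action
  let κ : GA K X := if sb then 1 else el K (FreeGroup.of x₀)
  let h : X → ((GA K X ⧸ W) →ₗ[K] GA K X) := fun x => if x = x₀ then φ.smulRight κ else 0
  have hTh : ∀ (x : X) (u : GA K X ⧸ W) (a : GA K X), Th θ h (FreeGroup.of x)⁻¹ (u, a) =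
      ((θ (FreeGroup.of x))⁻¹ u, a * el K (FreeGroup.of x) + h x u) := Th_of_inv θ h
  -- the action on `v0`
  have hmain : ∀ L' : List (X × Bool), FreeGroup.IsReduced L' → FreeGroup.mk L' ∈ T →
      Th θ h (FreeGroup.mk L')⁻¹ (c 1, 0) =
        (c (el K (FreeGroup.mk L')), if FreeGroup.mk L' = t then 1 else 0) := by
    intro L'
    induction L' using List.reverseRecOn with
    | nil =>
      intro _ _
      have hne : FreeGroup.mk ([] : List (X × Bool)) ≠ t := by
        intro h0
        have := mk_inj FreeGroup.IsReduced.nil hred h0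
        simp at this
      rw [if_neg hne]
      change Th θ h (1 : FreeGroup X)⁻¹ (c 1, 0) = (c (el K 1), 0)
      rw [inv_one, map_one, el_one]
      rfl
    | append_singleton L' s' ih =>
      intro hr hmem
      have hr' : FreeGroup.IsReduced L' := isReduced_prefix hr ⟨[s'], rfl⟩
      have hmem' : FreeGroup.mk L' ∈ T := hT _ hr hmem _ ⟨[s'], rfl⟩
      have hne : FreeGroup.mk L' ≠ t := by
        intro h0
        have h1 := mk_inj hr' hred h0
        have h2 := hmax _ hr hmem
        rw [h1] at h2
        simp at h2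
      have ih' := ih hr' hmem'
      rw [if_neg hne] at ih'
      obtain ⟨y, b⟩ := s'
      have hlast : FreeGroup.mk (L' ++ [(y, b)]) = t → y = x₀ ∧ b = sb := by
        intro h0
        have h1 := mk_inj hr hred h0
        have h3 := List.append_inj' h1 rfl
        simpa using h3.2
      cases b with
      | true =>
        have hmk : FreeGroup.mk (L' ++ [(y, true)]) = FreeGroup.mk L' * FreeGroup.of y := rfl
        rw [hmk] at hmem hlast ⊢
        have hsup : SuppIn T (el K (FreeGroup.mk L') * el K (FreeGroup.of y)) := by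
          rw [el_mul]; exact suppIn_el hmem
        have e1 : (θ (FreeGroup.of y))⁻¹ (c (el K (FreeGroup.mk L'))) =
            c (el K (FreeGroup.mk L' * FreeGroup.of y)) := by
          rw [← hθ1 y (el K (FreeGroup.mk L')) (suppIn_el hmem') hsup, el_mul]
          exact LinearEquiv.symm_apply_apply _ _
        rw [mul_inv_rev, map_mul, LinearEquiv.mul_apply, ih', hTh, zero_mul, zero_add, e1]
        congr 1
        by_cases hy : y = x₀
        · subst hy
          simp only [h, if_true, LinearMap.smulRight_apply]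
          rw [hφ _ ⟨suppIn_el hmem', hsup⟩]
          cases sb with
          | true =>
            simp only [f, κ, if_true, LinearMap.comp_apply]
            change (el K (FreeGroup.mk L') * el K (FreeGroup.of y)).coeff t • (1 : GA K X) = _
            rw [el_mul, el_coeff]
            split_ifs <;> simp
          | false =>
            have hn : ¬ (FreeGroup.mk L' * FreeGroup.of y = t) := by
              intro h0; simpa using hlast h0
            rw [if_neg hn]
            simp [f, cf_apply, hne]
        · have hn : ¬ (FreeGroup.mk L' * FreeGroup.of y = t) := fun h0 => hy (hlast h0).1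
          rw [if_neg hn]
          simp [h, hy]
      | false =>
        have hmk : FreeGroup.mk (L' ++ [(y, false)]) = FreeGroup.mk L' * (FreeGroup.of y)⁻¹ := rfl
        rw [hmk] at hmem hlast ⊢
        have hgy : FreeGroup.mk L' * (FreeGroup.of y)⁻¹ * FreeGroup.of y = FreeGroup.mk L' := by
          rw [mul_assoc, inv_mul_cancel, mul_one]
        have hsup : SuppIn T (el K (FreeGroup.mk L' * (FreeGroup.of y)⁻¹) *
            el K (FreeGroup.of y)) := by
          rw [el_mul, hgy]; exact suppIn_el hmem'
        have e1 : (θ (FreeGroup.of y))⁻¹ (c (el K (FreeGroup.mk L' * (FreeGroup.of y)⁻¹))) =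
            c (el K (FreeGroup.mk L')) := by
          rw [← hθ1 y (el K (FreeGroup.mk L' * (FreeGroup.of y)⁻¹)) (suppIn_el hmem) hsup, el_mul,
            hgy]
          exact LinearEquiv.symm_apply_apply _ _
        rw [mul_inv_rev, map_mul, LinearEquiv.mul_apply, ih']
        apply (Th θ h (FreeGroup.of y)⁻¹).injective
        rw [← LinearEquiv.mul_apply, ← map_mul, mul_inv_cancel, map_one, hTh, e1]
        change (c (el K (FreeGroup.mk L')), (0 : GA K X)) = _
        congr 1
        by_cases hy : y = x₀
        · subst hy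
          simp only [h, if_true, LinearMap.smulRight_apply]
          rw [hφ _ ⟨suppIn_el hmem, hsup⟩]
          cases sb with
          | true =>
            have hn : ¬ (FreeGroup.mk L' * (FreeGroup.of y)⁻¹ = t) := by
              intro h0; simpa using hlast h0
            rw [if_neg hn]
            simp only [f, κ, if_true, LinearMap.comp_apply]
            change 0 = 0 * _ + (el K (FreeGroup.mk L' * (FreeGroup.of y)⁻¹) *
              el K (FreeGroup.of y)).coeff t • (1 : GA K X)
            rw [el_mul, el_coeff, hgy, if_neg hne]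
            simp
          | false =>
            simp only [f, κ]
            change 0 = _ + (- (el K (FreeGroup.mk L' * (FreeGroup.of y)⁻¹)).coeff t) •
              el K (FreeGroup.of y)
            rw [el_coeff]
            split_ifs <;> simp
        · have hn : ¬ (FreeGroup.mk L' * (FreeGroup.of y)⁻¹ = t) := fun h0 => hy (hlast h0).1
          rw [if_neg hn]
          simp [h, hy]
  -- the action of elements supported in `T`
  have hmain2 : ∀ ρ : GA K X, SuppIn T ρ → RA (Th θ h) (c 1, 0) ρ = (c ρ, ρ.coeff t • 1) := by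
    intro ρ hρ
    have hmem := mem_span_el hρ
    clear hρ
    induction hmem using Submodule.span_induction with
    | mem ρ' hρ' =>
      obtain ⟨g, hg, rfl⟩ := hρ'
      have h6 := hmain g.toWord FreeGroup.isReduced_toWord (by rw [FreeGroup.mk_toWord]; exact hg)
      rw [FreeGroup.mk_toWord] at h6
      change RA (Th θ h) (c 1, 0) (el K g) = (c (el K g), (el K g).coeff t • 1)
      rw [RA_el, h6, el_coeff]
      congr 1
      split_ifs <;> simp
    | zero => rw [map_zero, map_zero, coeff_zero, Finsupp.zero_apply, zero_smul]; rfl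
    | add x y _ _ hx hy =>
      rw [map_add, map_add, hx, hy, coeff_add, Finsupp.add_apply, add_smul]
      rfl
    | smul r x _ hx =>
      rw [map_smul, map_smul, hx, coeff_smul, Finsupp.smul_apply, smul_assoc]
      rfl
  -- the annihilator
  have hann : ∀ ρ ∈ LT L (T \ {t}), RA (Th θ h) (c 1, 0) ρ = 0 := by
    intro ρ hρ
    unfold LT at hρ
    induction hρ using Submodule.span_induction with
    | mem ρ' hρ' =>
      have h6 : SuppIn T ρ' := fun g hg => (hρ'.2 g hg).1
      have h7 : ρ'.coeff t = 0 := by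
        by_contra h8
        exact (hρ'.2 t h8).2 rfl
      rw [hmain2 ρ' h6, h7, (hc0 ρ' h6).2 hρ'.1, zero_smul]
      rfl
    | zero => rw [map_zero]
    | add x y _ _ hx hy => rw [map_add, hx, hy, add_zero]
    | smul r x _ hx =>
      have : r • x = x * r.unop := rfl
      rw [this, RA_mul, hx, RA_zero_left]
  have h5 := hann _ ha
  rw [RA_mul, hmain2 e heT, (hc0 e heT).2 he, he1, one_smul, RA_Th_zero, one_mul] at h5
  exact congrArg Prod.snd h5

/-! ### The induction -/

theorem PC_diff {T : Set (FreeGroup X)} (hT : PC T) {L0 : List (X × Bool)}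
    (hred : FreeGroup.IsReduced L0)
    (hmax : ∀ L' : List (X × Bool), FreeGroup.IsReduced L' → FreeGroup.mk L' ∈ T →
      L'.length ≤ L0.length) : PC (T \ {FreeGroup.mk L0}) := by
  intro L hL hLT L' hL'
  refine ⟨hT L hL hLT.1 L' hL', fun h0 => ?_⟩
  have hL'r : FreeGroup.IsReduced L' := isReduced_prefix hL hL'
  have h1 := mk_inj hL'r hred h0
  have h2 := hmax L hL hLT.1
  have h3 := hL'.length_le
  have h4 : L' = L := hL'.eq_of_length (by rw [h1] at h3 ⊢; omega)
  exact hLT.2 (by rw [← h4, h1]; rfl)

theorem rank_LT (L : RIdeal K X) : ∀ (n : ℕ) (T : Set (FreeGroup X)), T.Finite → T.ncard = n →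
    PC T → ∃ m, IdealHasRank (LT L T) m := by
  classical
  intro n
  induction n with
  | zero =>
    intro T hTf hn _
    have hT0 : T = ∅ := by rwa [Set.ncard_eq_zero hTf] at hn
    subst hT0
    have h0 : LT L (∅ : Set (FreeGroup X)) = ⊥ := by
      unfold LT
      rw [Submodule.span_eq_bot]
      intro ρ hρ
      ext g
      by_contra h1
      exact hρ.2 g h1
    rw [h0]
    exact ⟨0, ⟨Basis.empty _⟩⟩
  | succ n ih =>
    intro T hTf hn hPC
    have hne : T.Nonempty := by
      rw [Set.nonempty_iff_ne_empty]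
      rintro rfl
      simp at hn
    obtain ⟨t, htT, htmax⟩ := hTf.exists_maximalFor (fun g => g.toWord.length) T hne
    have hmax : ∀ L' : List (X × Bool), FreeGroup.IsReduced L' → FreeGroup.mk L' ∈ T →
        L'.length ≤ t.toWord.length := by
      intro L' hr hm
      have h1 : (FreeGroup.mk L').toWord = L' := by rw [FreeGroup.toWord_mk, hr.reduce_eq]
      by_contra h2
      have := htmax hm (by simp only [h1]; omega)
      simp only [h1] at this
      omega
    have hPC' : PC (T \ {t}) := by
      have := PC_diff hPC FreeGroup.isReduced_toWord hmax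
      rwa [FreeGroup.mk_toWord] at this
    obtain ⟨m, ⟨b⟩⟩ := ih (T \ {t}) (hTf.subset Set.sdiff_subset)
      (by rw [Set.ncard_sdiff_singleton_of_mem htT, hn]; rfl) hPC'
    have hle : LT L (T \ {t}) ≤ LT L T :=
      Submodule.span_mono fun ρ hρ => ⟨hρ.1, fun g hg => (hρ.2 g hg).1⟩
    -- `L` has an element with non-zero coefficient at `t`, or not
    by_cases hA : ∃ e ∈ L, SuppIn T e ∧ e.coeff t ≠ 0
    swap
    · have heq : LT L T = LT L (T \ {t}) := by
        refine le_antisymm (Submodule.span_le.2 ?_) hle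
        intro ρ hρ
        refine Submodule.subset_span ⟨hρ.1, fun g hg => ⟨hρ.2 g hg, fun h0 => ?_⟩⟩
        rw [Set.mem_singleton_iff] at h0
        subst h0
        exact hA ⟨ρ, hρ.1, hρ.2, hg⟩
      rw [heq]
      exact ⟨m, ⟨b⟩⟩
    obtain ⟨e₀, he₀, he₀T, he₀t⟩ := hA
    obtain ⟨e, he, heT, het⟩ : ∃ e ∈ L, SuppIn T e ∧ e.coeff t = 1 :=
      ⟨(e₀.coeff t)⁻¹ • e₀, mem_smul L he₀ _, suppIn_smul _ he₀T, by
        rw [coeff_smul, Finsupp.smul_apply, smul_eq_mul, inv_mul_cancel₀ he₀t]⟩
    -- subtracting a multiple of an element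
    have hsub : ∀ ρ ∈ L, SuppIn T ρ → ∀ e' ∈ L, SuppIn T e' → e'.coeff t = 1 →
        ρ - ρ.coeff t • e' ∈ LT L (T \ {t}) := by
      intro ρ hρ hρT e' he' he'T he't
      refine Submodule.subset_span ⟨L.sub_mem hρ (mem_smul L he' _), ?_⟩
      intro g hg
      have hgT : g ∈ T := by
        by_contra h0
        apply hg
        have h1 : ρ.coeff g = 0 := by by_contra h'; exact h0 (hρT g h')
        have h2 : e'.coeff g = 0 := by by_contra h'; exact h0 (he'T g h')
        rw [sub_eq_add_neg, coeff_add, Finsupp.add_apply, ← neg_smul, coeff_smul,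
          Finsupp.smul_apply, h1, h2]
        simp
      refine ⟨hgT, fun h0 => hg ?_⟩
      rw [Set.mem_singleton_iff] at h0
      subst h0
      rw [sub_eq_add_neg, coeff_add, Finsupp.add_apply, ← neg_smul, coeff_smul,
        Finsupp.smul_apply, he't]
      simp
    -- the basis is extended as soon as `e` is independent
    have hext : (∀ a : GA K X, e * a ∈ LT L (T \ {t}) → a = 0) → ∃ m, IdealHasRank (LT L T) m := by
      intro hli
      refine ⟨m + 1, ⟨Basis.mkFinConsOfLE e (Submodule.subset_span ⟨he, heT⟩) b hle ?_ ?_⟩⟩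
      · intro c x hx hcx
        have h1 : e * c.unop ∈ LT L (T \ {t}) := by
          have h2 : c • e = -x := eq_neg_of_add_eq_zero_left hcx
          have h3 : e * c.unop = c • e := rfl
          rw [h3, h2]
          exact Submodule.neg_mem _ hx
        have := hli _ h1
        exact MulOpposite.unop_injective this
      · intro z hz
        have h1 : LT L T ≤ LT L (T \ {t}) ⊔ Submodule.span _ {e} := by
          refine Submodule.span_le.2 ?_
          intro ρ hρ
          have h2 := hsub ρ hρ.1 hρ.2 e he heT het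
          have h3 : ρ = (ρ - ρ.coeff t • e) + ρ.coeff t • e := by abel
          rw [h3]
          refine Submodule.add_mem_sup h2 ?_
          exact mem_smul _ (Submodule.mem_span_singleton_self e) _
        obtain ⟨n', hn', y, hy, rfl⟩ := Submodule.mem_sup.1 (h1 hz)
        obtain ⟨c, rfl⟩ := Submodule.mem_span_singleton.1 hy
        refine ⟨-c, ?_⟩
        have h4 : n' + c • e + -c • e = n' := by
          rw [neg_smul, add_assoc, add_neg_cancel, add_zero]
        rw [h4]
        exact hn'
    rcases List.eq_nil_or_concat t.toWord with hnil | ⟨L0, s, hL0⟩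
    · -- `t = 1`
      apply hext
      intro a ha
      have ht1 : t = 1 := FreeGroup.toWord_eq_nil_iff.1 hnil
      have hT1 : ∀ g ∈ T, g = 1 := by
        intro g hg
        have := hmax g.toWord FreeGroup.isReduced_toWord (by rwa [FreeGroup.mk_toWord])
        rw [hnil] at this
        exact FreeGroup.toWord_eq_nil_iff.1 (List.eq_nil_of_length_eq_zero (by simpa using this))
      have hbot : LT L (T \ {t}) = ⊥ := by
        unfold LT
        rw [Submodule.span_eq_bot]
        intro ρ hρ
        ext g
        by_contra h1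
        have h2 := hρ.2 g h1
        exact h2.2 (by rw [Set.mem_singleton_iff, hT1 g h2.1, ht1])
      have he1 : e = 1 := by
        ext g
        by_cases hg : g = 1
        · subst hg
          rw [← ht1, het, ht1]; simp
        · have h1 : e.coeff g = 0 := by
            by_contra h2; exact hg (hT1 g (heT g h2))
          rw [h1, ← el_one, el_coeff, if_neg (fun h => hg h.symm)]
      rw [hbot, Submodule.mem_bot, he1, one_mul] at ha
      exact ha
    · -- `t = mk (L0 ++ [s])`
      have hL0' : t.toWord = L0 ++ [s] := by simpa using hL0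
      have htmk : FreeGroup.mk (L0 ++ [s]) = t := by rw [← hL0', FreeGroup.mk_toWord]
      have hred : FreeGroup.IsReduced (L0 ++ [s]) := by
        rw [← hL0']; exact FreeGroup.isReduced_toWord
      by_cases hB : ∃ ρ ∈ L, SuppIn T ρ ∧ SuppIn T (ρ * el K (FreeGroup.mk [s])⁻¹) ∧
          ρ.coeff t ≠ 0
      · -- Case 1
        obtain ⟨ρ₀, hρ₀, hρ₀T, hρ₀s, hρ₀t⟩ := hB
        obtain ⟨ρ, hρ, hρT, hρs, hρt⟩ : ∃ ρ ∈ L, SuppIn T ρ ∧
            SuppIn T (ρ * el K (FreeGroup.mk [s])⁻¹) ∧ ρ.coeff t = 1 :=
          ⟨(ρ₀.coeff t)⁻¹ • ρ₀, mem_smul L hρ₀ _, suppIn_smul _ hρ₀T, by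
            rw [smul_mul_assoc]; exact suppIn_smul _ hρ₀s, by
            rw [coeff_smul, Finsupp.smul_apply, smul_eq_mul, inv_mul_cancel₀ hρ₀t]⟩
        have hρ' : ρ ∈ LT L (T \ {t}) := by
          have h1 : ρ * el K (FreeGroup.mk [s])⁻¹ ∈ LT L (T \ {t}) := by
            refine Submodule.subset_span ⟨mem_mul L hρ _, fun g hg => ⟨hρs g hg, fun h0 => ?_⟩⟩
            rw [Set.mem_singleton_iff] at h0
            subst h0
            rw [mul_el_coeff, inv_inv] at hg
            have h2 := hρT _ hg
            rw [← htmk, FreeGroup.mul_mk] at h2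
            have h3 : FreeGroup.IsReduced (L0 ++ [s] ++ [s]) :=
              FreeGroup.IsReduced.append_overlap hred (by simp) (by simp)
            have h4 := hmax _ h3 h2
            rw [hL0'] at h4
            simp at h4
          have h5 := mem_mul _ h1 (el K (FreeGroup.mk [s]))
          rwa [mul_assoc, el_mul, inv_mul_cancel, el_one, mul_one] at h5
        have heq : LT L T = LT L (T \ {t}) := by
          refine le_antisymm (Submodule.span_le.2 ?_) hle
          intro σ hσ
          have h2 := hsub σ hσ.1 hσ.2 ρ hρ hρT hρt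
          have h3 : σ = (σ - σ.coeff t • ρ) + σ.coeff t • ρ := by abel
          rw [h3]
          exact Submodule.add_mem _ h2 (mem_smul _ hρ' _)
        rw [heq]
        exact ⟨m, ⟨b⟩⟩
      · -- Case 2
        apply hext
        intro a ha
        subst htmk
        refine key L T hPC hTf L0 s hred htT ?_ ?_ e heT he het a ha
        · intro L' h h'
          have := hmax L' h h'
          rwa [hL0'] at this
        · intro ρ h1 h2 h3
          by_contra h4
          exact hB ⟨ρ, h1, h2, h3, h4⟩

/-- QP-T1: finitely generated right ideals of the group algebra of a free group are free of finite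
rank. -/
theorem fg_free (L : RIdeal K X) (hL : L.FG) : ∃ n, IdealHasRank L n := by
  classical
  obtain ⟨S, hS⟩ := hL
  let T : Set (FreeGroup X) := ⋃ f ∈ S, ⋃ g ∈ f.coeff.support,
    {w | ∃ L', L' <+: g.toWord ∧ w = FreeGroup.mk L'}
  have hTf : T.Finite := by
    refine Set.Finite.biUnion (Finset.finite_toSet S) fun f _ => ?_
    refine Set.Finite.biUnion (Finset.finite_toSet _) fun g _ => ?_
    have h1 : {w | ∃ L', L' <+: g.toWord ∧ w = FreeGroup.mk L'} ⊆
        (fun L' => FreeGroup.mk L') '' {L' | L' ∈ g.toWord.inits} := by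
      rintro w ⟨L', hL', rfl⟩
      exact ⟨L', (List.mem_inits _ _).2 hL', rfl⟩
    exact (Set.Finite.image _ (List.finite_toSet _)).subset h1
  have hPC : PC T := by
    intro L₁ hr hm L₂ h2
    simp only [T, Set.mem_iUnion] at hm ⊢
    obtain ⟨f, hf, g, hg, L₃, h3, h4⟩ := hm
    have h5 : FreeGroup.IsReduced L₃ := isReduced_prefix FreeGroup.isReduced_toWord h3
    have h6 := mk_inj hr h5 h4
    subst h6
    exact ⟨f, hf, g, hg, L₂, h2.trans h3, rfl⟩
  have heq : LT L T = L := by
    refine le_antisymm (Submodule.span_le.2 fun ρ hρ => hρ.1) ?_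
    conv_lhs => rw [← hS]
    refine Submodule.span_le.2 fun f hf => Submodule.subset_span ⟨?_, ?_⟩
    · rw [← hS]; exact Submodule.subset_span hf
    · intro g hg
      simp only [T, Set.mem_iUnion]
      exact ⟨f, hf, g, by simpa using hg, g.toWord, List.prefix_rfl, FreeGroup.mk_toWord.symm⟩
  obtain ⟨m, hm⟩ := rank_LT L T.ncard T hTf rfl hPC
  rw [heq] at hm
  exact ⟨m, hm⟩

end Pool.Agent.Helper89.QP
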